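import Pool.Agent.Helper13.SZ.Top1

/-!
# MP_9062f4_nt: Salem numbers with a polynomial of bounded height and bounded `L¹` norm on one arc

`ArcClass l H B` is the set of the Salem numbers `τ` that are a root and the Mahler measure of an integer polynomial `A` all of whose
coefficients are at most `H` in absolute value and for which the integral of `|A|` over some arc of length `l` of the unit circle is at
most `B`.  For each `l > 0` these sets increase to the set of all Salem numbers; every `τ` in `ArcClass l H B` is a root and the Mahler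
measure of an integer polynomial with at most `C exp (C B)` nonzero coefficients; the limit points of `ArcClass l H B` are Pisot
numbers, and for `H ≥ 1` and `B ≥ 6 l` the real root of `x ^ 3 - x - 1` is the smallest limit point.
-/

namespace Pool.Agent.Results.MP_9062f4_nt.ArcIntegral

open Polynomial Filter Topology

/-- A Salem number: a real algebraic integer `τ > 1` all of whose conjugates other than `τ` have
absolute value at most `1`, at least one of them being of absolute value `1`. -/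
def IsSalem (τ : ℝ) : Prop :=
  IsIntegral ℤ τ ∧ 1 < τ ∧
    (∀ z : ℂ, aeval z (minpoly ℚ τ) = 0 → z ≠ (τ : ℂ) → ‖z‖ ≤ 1) ∧
    (∃ z : ℂ, aeval z (minpoly ℚ τ) = 0 ∧ ‖z‖ = 1)

/-- A Pisot number: a real algebraic integer `θ > 1` all of whose conjugates other than `θ` have
absolute value less than `1`. -/
def IsPisot (θ : ℝ) : Prop :=
  IsIntegral ℤ θ ∧ 1 < θ ∧ ∀ z : ℂ, aeval z (minpoly ℚ θ) = 0 → z ≠ (θ : ℂ) → ‖z‖ < 1

/-- The integral of `|A|` over the arc of the unit circle of length `l` that begins at `e ^ (iα)`. -/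
noncomputable def arcIntegral (A : ℤ[X]) (α l : ℝ) : ℝ :=
  ∫ θ in α..(α + l), ‖aeval (Complex.exp ((θ : ℂ) * Complex.I)) A‖

/-- The Salem numbers `τ` that are a root and the Mahler measure of an integer polynomial `A` with
coefficients in `[-H, H]` and with the integral of `|A|` over some arc of length `l` at most `B`. -/
def ArcClass (l : ℝ) (H : ℕ) (B : ℝ) : Set ℝ :=
  {τ | IsSalem τ ∧ ∃ A : ℤ[X], aeval τ A = 0 ∧ (A.map (Int.castRingHom ℂ)).mahlerMeasure = τ ∧
    (∀ n, |A.coeff n| ≤ H) ∧ ∃ α : ℝ, arcIntegral A α l ≤ B}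

/-- Let `l > 0`.  (1) For every `H` there is a `C` such that for every `B` each element of
`ArcClass l H B` is a root and the Mahler measure of an integer polynomial with at most
`C exp (C B)` nonzero coefficients, all in `[-2 H, 2 H]`.  (2) Every limit point of
`ArcClass l H B` is a Pisot number.  (3) Every Salem number is in some `ArcClass l H B`.  (4) If
`x < θ`, `θ` the real root of `x ^ 3 - x - 1`, only finitely many elements of `ArcClass l H B` are
at most `x`.  (5) If `H ≥ 1` and `B ≥ 6 l` then `θ` is the smallest limit point of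
`ArcClass l H B`.  (6) `θ` is the smallest limit point of the set of all Salem numbers if and only
if for every `x < θ` all Salem numbers `τ ≤ x` are in one `ArcClass l H B`. -/
theorem result (l : ℝ) (hl : 0 < l) :
    (∀ H : ℕ, ∃ C : ℝ, ∀ B : ℝ, ∀ τ ∈ ArcClass l H B, ∃ A : ℤ[X],
      (A.support.card : ℝ) ≤ C * Real.exp (C * B) ∧ (∀ n, |A.coeff n| ≤ 2 * H) ∧ aeval τ A = 0 ∧
        (A.map (Int.castRingHom ℂ)).mahlerMeasure = τ) ∧
    (∀ (H : ℕ) (B c : ℝ), AccPt c (𝓟 (ArcClass l H B)) → IsPisot c) ∧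
    (∀ τ : ℝ, IsSalem τ → ∃ (H : ℕ) (B : ℝ), τ ∈ ArcClass l H B) ∧
    (∀ (H : ℕ) (B θ x : ℝ), θ ^ 3 - θ - 1 = 0 → x < θ → (ArcClass l H B ∩ Set.Iic x).Finite) ∧
    (∀ H : ℕ, 1 ≤ H → ∀ B : ℝ, 6 * l ≤ B → ∀ θ : ℝ, θ ^ 3 - θ - 1 = 0 →
      AccPt θ (𝓟 (ArcClass l H B)) ∧ ∀ x : ℝ, AccPt x (𝓟 (ArcClass l H B)) → θ ≤ x) ∧
    (∀ θ : ℝ, θ ^ 3 - θ - 1 = 0 →
      ((AccPt θ (𝓟 {τ : ℝ | IsSalem τ}) ∧ ∀ x : ℝ, AccPt x (𝓟 {τ : ℝ | IsSalem τ}) → θ ≤ x) ↔
        ∀ x < θ, ∃ (H : ℕ) (B : ℝ), ∀ τ ≤ x, IsSalem τ → τ ∈ ArcClass l H B)) := by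
  refine ⟨fun H => ?_, fun H B c h => Pool.Agent.Helper13.SZ.limit_pisot1 hl H B c h,
    fun τ h => Pool.Agent.Helper13.SZ.exhaust (fun t => t) l h,
    fun H B θ x hθ hx => Pool.Agent.Helper13.SZ.finite_below1 hl H B hθ hx,
    fun H hH B hB θ hθ => ⟨Pool.Agent.Helper13.SZ.theta_acc1 hl hH hB hθ, fun x hx => ?_⟩,
    fun θ hθ => Pool.Agent.Helper13.SZ.criterion1 hl θ hθ⟩
  · obtain ⟨C, -, hC⟩ := Pool.Agent.Helper13.SZ.sparse1 hl H
    refine ⟨C, fun B τ hτ => ?_⟩
    obtain ⟨A, h1, h2, h3, h4⟩ := hC B τ hτ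
    exact ⟨A, h1, fun n => by exact_mod_cast h2 n, h3, h4⟩
  · exact Pool.Agent.Helper53.SLM.hSie' x θ
      (Pool.Agent.Helper13.SZ.limit_pisot1 hl H B x hx) hθ

end Pool.Agent.Results.MP_9062f4_nt.ArcIntegral
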