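import Pool.Agent.Helper53.SLM.Asm

/-!
# MP_9062f4_nt: limit points of Salem numbers with bounded characteristic

`SalemChar B` is the set of the Salem numbers `τ` that are a root and the Mahler measure of an integer polynomial `A` such that the
mean of the positive part of `log |A| - log |Q|` over the unit circle is at most `B` for some integer polynomial `Q` of Mahler
measure `1`.  These sets increase to the set of all Salem numbers, and each of their limit points is `1`, a Pisot number or a Salem
number.
-/

namespace Pool.Agent.Results.MP_9062f4_nt.BoundedCharacteristic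

open Polynomial Filter Topology

/-- A Salem number: a real algebraic integer `τ > 1` all of whose conjugates other than `τ` have
absolute value at most `1`, at least one of them being of absolute value `1`. -/
def IsSalem (τ : ℝ) : Prop :=
  IsIntegral ℤ τ ∧ 1 < τ ∧
    (∀ z : ℂ, aeval z (minpoly ℚ τ) = 0 → z ≠ (τ : ℂ) → ‖z‖ ≤ 1) ∧
    (∃ z : ℂ, aeval z (minpoly ℚ τ) = 0 ∧ ‖z‖ = 1)

/-- A Pisot number: a real algebraic integer `θ > 1` all of whose conjugates other than `θ` have
absolute value less than `1`. -/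
def IsPisot (θ : ℝ) : Prop :=
  IsIntegral ℤ θ ∧ 1 < θ ∧ ∀ z : ℂ, aeval z (minpoly ℚ θ) = 0 → z ≠ (θ : ℂ) → ‖z‖ < 1

/-- The Salem numbers `τ` that are a root and the Mahler measure of an integer polynomial `A` for
which there is an integer polynomial `Q` of Mahler measure `1` such that the mean over the unit
circle of the positive part of `log |A| - log |Q|` is at most `B`. -/
def SalemChar (B : ℝ) : Set ℝ :=
  {τ | IsSalem τ ∧ ∃ A Q : ℤ[X], aeval τ A = 0 ∧ (A.map (Int.castRingHom ℂ)).mahlerMeasure = τ ∧
    (Q.map (Int.castRingHom ℂ)).mahlerMeasure = 1 ∧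
    Real.circleAverage (fun z : ℂ => max (Real.log ‖aeval z A‖ - Real.log ‖aeval z Q‖) 0) 0 1 ≤ B}

/-- (1) Every limit point of `SalemChar B` is `1`, a Pisot number or a Salem number.  (2) Every Salem
number is in some `SalemChar B`.  (3) If `q > 0` then `SalemChar (L / q)` contains all Salem numbers
that are a root and the Mahler measure of an integer polynomial `A` for which the mean of `|A| ^ q`
over the unit circle is at most `L`. -/
theorem result :
    (∀ B c : ℝ, AccPt c (𝓟 (SalemChar B)) → c = 1 ∨ IsPisot c ∨ IsSalem c) ∧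
    (∀ τ : ℝ, IsSalem τ → ∃ B : ℝ, τ ∈ SalemChar B) ∧
    (∀ q L : ℝ, 0 < q → ∀ τ : ℝ, IsSalem τ →
      (∃ A : ℤ[X], aeval τ A = 0 ∧ (A.map (Int.castRingHom ℂ)).mahlerMeasure = τ ∧
        Real.circleAverage (fun z : ℂ => ‖aeval z A‖ ^ q) 0 1 ≤ L) → τ ∈ SalemChar (L / q)) := by
  refine ⟨fun B c h => ?_, fun τ h => Pool.Agent.Helper53.SLM.TC_exhaust h, ?_⟩
  · exact Pool.Agent.Helper53.SLM.TC_limit Pool.Agent.Helper53.SLM.hMmp'
      Pool.Agent.Helper53.SLM.hLev' Pool.Agent.Helper53.SLM.hRat' Pool.Agent.Helper53.SLM.hCon' h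
  · rintro q L hq τ hS ⟨A, h1, h2, h3⟩
    have hA : A ≠ 0 := by
      rintro rfl
      have h4 := hS.2.1
      rw [Polynomial.map_zero, mahlerMeasure_zero] at h2
      linarith
    exact ⟨hS, A, 1, h1, h2, Pool.Agent.Helper53.SL.mahler_one,
      Pool.Agent.Helper53.SLM.chr_le A hA hq h3⟩

end Pool.Agent.Results.MP_9062f4_nt.BoundedCharacteristic
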