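import Pool.Agent.Helper53.SLM.Asm

/-!
# MP_9062f4_nt: limit points of Salem numbers with bounded `p`-th moment, `p > 1`

`SalemMoment p B` is the set of the Salem numbers `τ` that are a root and the Mahler measure of an integer polynomial `A` such that
the mean of `|log |A| - log |Q|| ^ p` over the unit circle is at most `B` for some integer polynomial `Q` of Mahler measure `1`.  For
every `p > 1` these sets increase to the set of all Salem numbers, all their limit points are Pisot numbers, and for all large `B` the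
real root `θ` of `x ^ 3 - x - 1` is the smallest limit point of `SalemMoment p B`.
-/

namespace Pool.Agent.Results.MP_9062f4_nt.HigherMoments

open Polynomial Filter Topology

/-- A Salem number: a real algebraic integer `τ > 1` all of whose conjugates other than `τ` have
absolute value at most `1`, at least one of them being of absolute value `1`. -/
def IsSalem (τ : ℝ) : Prop :=
  IsIntegral ℤ τ ∧ 1 < τ ∧
    (∀ z : ℂ, aeval z (minpoly ℚ τ) = 0 → z ≠ (τ : ℂ) → ‖z‖ ≤ 1) ∧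
    (∃ z : ℂ, aeval z (minpoly ℚ τ) = 0 ∧ ‖z‖ = 1)

/-- A Pisot number: a real algebraic integer `θ > 1` all of whose conjugates other than `θ` have
absolute value less than `1`. -/
def IsPisot (θ : ℝ) : Prop :=
  IsIntegral ℤ θ ∧ 1 < θ ∧ ∀ z : ℂ, aeval z (minpoly ℚ θ) = 0 → z ≠ (θ : ℂ) → ‖z‖ < 1

/-- The mean over the unit circle of `|log |A| - log |Q|| ^ p`. -/
noncomputable def moment (p : ℝ) (A Q : ℤ[X]) : ℝ :=
  Real.circleAverage (fun z : ℂ => |Real.log ‖aeval z A‖ - Real.log ‖aeval z Q‖| ^ p) 0 1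

/-- The Salem numbers `τ` that are a root and the Mahler measure of an integer polynomial `A` for
which there is an integer polynomial `Q` of Mahler measure `1` such that the mean of
`|log |A| - log |Q|| ^ p` over the unit circle is at most `B`. -/
def SalemMoment (p B : ℝ) : Set ℝ :=
  {τ | IsSalem τ ∧ ∃ A Q : ℤ[X], aeval τ A = 0 ∧ (A.map (Int.castRingHom ℂ)).mahlerMeasure = τ ∧
    (Q.map (Int.castRingHom ℂ)).mahlerMeasure = 1 ∧ moment p A Q ≤ B}

theorem eq_TP (p B : ℝ) : SalemMoment p B = Pool.Agent.Helper53.SL.TP p B := by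
  unfold SalemMoment Pool.Agent.Helper53.SL.TP moment
  simp only [Pool.Agent.Helper53.SLM.momp_eq]
  rfl

/-- Let `p > 1`.  (1) Every limit point of `SalemMoment p B` is a Pisot number.  (2) Every Salem
number is in some `SalemMoment p B`.  (3) For all `k` and `M`, all Salem numbers `τ ≤ M` that are a
root and the Mahler measure of an integer polynomial with at most `k` nonzero coefficients are in one
`SalemMoment p B`.  (4) If `x < θ`, `θ` the real root of `x ^ 3 - x - 1`, then only finitely many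
elements of `SalemMoment p B` are at most `x`.  (5) For all sufficiently large `B`, `θ` is the
smallest limit point of `SalemMoment p B`.  (6) `θ` is the smallest limit point of the set of all
Salem numbers if and only if for every `x < θ` all Salem numbers `τ ≤ x` are in one
`SalemMoment p B`. -/
theorem result (p : ℝ) (hp : 1 < p) :
    (∀ B c : ℝ, AccPt c (𝓟 (SalemMoment p B)) → IsPisot c) ∧
    (∀ τ : ℝ, IsSalem τ → ∃ B : ℝ, τ ∈ SalemMoment p B) ∧
    (∀ (k : ℕ) (M : ℝ), ∃ B : ℝ, ∀ τ ≤ M, IsSalem τ →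
      (∃ A : ℤ[X], A.support.card ≤ k ∧ aeval τ A = 0 ∧
        (A.map (Int.castRingHom ℂ)).mahlerMeasure = τ) → τ ∈ SalemMoment p B) ∧
    (∀ B θ x : ℝ, θ ^ 3 - θ - 1 = 0 → x < θ → (SalemMoment p B ∩ Set.Iic x).Finite) ∧
    (∃ B₀ : ℝ, ∀ B ≥ B₀, ∀ θ : ℝ, θ ^ 3 - θ - 1 = 0 →
      AccPt θ (𝓟 (SalemMoment p B)) ∧ ∀ x : ℝ, AccPt x (𝓟 (SalemMoment p B)) → θ ≤ x) ∧
    (∀ θ : ℝ, θ ^ 3 - θ - 1 = 0 →
      ((AccPt θ (𝓟 {τ : ℝ | IsSalem τ}) ∧ ∀ x : ℝ, AccPt x (𝓟 {τ : ℝ | IsSalem τ}) → θ ≤ x) ↔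
        ∀ x < θ, ∃ B : ℝ, ∀ τ ≤ x, IsSalem τ → τ ∈ SalemMoment p B)) := by
  simp only [eq_TP]
  have hlim : ∀ B c : ℝ, AccPt c (𝓟 (Pool.Agent.Helper53.SL.TP p B)) →
      Pool.Agent.Helper96.Salem.IsPisot c := fun B c h =>
    Pool.Agent.Helper53.SLM.limit_pisot Pool.Agent.Helper53.SLM.hMmp'
      Pool.Agent.Helper53.SLM.hLev' Pool.Agent.Helper53.SLM.hRat' Pool.Agent.Helper53.SLM.hCon'
      Pool.Agent.Helper53.SLM.hDtp' Pool.Agent.Helper53.SLM.hLms' Pool.Agent.Helper53.SLM.hPsa' hp h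
  refine ⟨hlim, fun τ h => Pool.Agent.Helper53.SLM.exhaust p h, fun k M => ?_,
    fun B θ x hθ hx => ?_, ?_, fun θ hθ => ?_⟩
  · obtain ⟨B, hB⟩ := Pool.Agent.Helper53.SLM.terms_sub Pool.Agent.Helper53.SLM.hUnp' k M hp.le
    refine ⟨B, fun τ hM hS => ?_⟩
    rintro ⟨A, h1, h2, h3⟩
    refine hB τ hS hM ⟨A, ?_, h1, h2, h3⟩
    rintro rfl
    have h4 := hS.2.1
    rw [Polynomial.map_zero, mahlerMeasure_zero] at h3
    linarith
  · exact Pool.Agent.Helper53.SLM.finite_below Pool.Agent.Helper53.SLM.hSie'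
      (fun τ hτ => hτ.1.2.1) (hlim B) hθ hx
  · obtain ⟨B0, hB0⟩ := Pool.Agent.Helper53.SLM.theta_acc Pool.Agent.Helper53.SLM.hUnp'
      Pool.Agent.Helper53.SLM.hSal' hp.le
    refine ⟨B0, fun B hB θ hθ => ⟨hB0 B hB θ hθ, fun x hx => ?_⟩⟩
    exact Pool.Agent.Helper53.SLM.hSie' x θ (hlim B x hx) hθ
  · refine (Pool.Agent.Helper53.SLM.criterion Pool.Agent.Helper53.SLM.hUnp'
      Pool.Agent.Helper53.SLM.hSal' Pool.Agent.Helper53.SLM.hSie' hp.le hlim θ hθ).trans ?_
    exact ⟨fun h x hx => (h x hx).imp fun B hB τ h1 h2 => hB τ h2 h1,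
      fun h x hx => (h x hx).imp fun B hB τ h1 h2 => hB τ h2 h1⟩

end Pool.Agent.Results.MP_9062f4_nt.HigherMoments
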